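import Pool.Agent.Q31.GP.Mono

/-!
# There is no monotone relation between the gaps of the zeta zeros (under RH)

Assume RH and let `δ_n` be the unfolded gaps.  Could `δ_{n+1}` be, for almost all `n`, close to a nondecreasing function
of `δ_n`?  The GUE hypothesis says no.  We prove, under RH alone, the following quantitative and
more general statement.  Let `k, m ≥ 1` and let `L_n = ∑_{j<k} c_j δ_{n+j}` be a linear form in `k`
consecutive gaps with `max |c_j| ≥ 1`.  Then a positive proportion, at least `ε`, of all the pairs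
`(n, n')` with `n, n' ≤ N` is discordant: `L_n + ε ≤ L_{n'}` but `L_{n'+m} + ε ≤ L_{n+m}`; here `ε > 0` depends only on
`k` and `m`, and `N` is large.  In particular, for `k = 1`: for a positive proportion of the pairs
`(n, n')` the gap `δ_n` is smaller than `δ_{n'}` by at least `ε` while `δ_{n+m}` is larger than
`δ_{n'+m}` by at least `ε`.  Hence, for no nondecreasing function `φ`, `L_{n+m}` is approximately
`φ(L_n)` for almost all `n`.

Idea of the proof.  By the theorem `half` (`HalfSpaces`) `L_{n+m} - L_n ≥ η` for a positive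
proportion of the `n`; so for some level `λ` a positive proportion of the `n` jumps over `λ`, from
`L_n ≤ λ - η/4` to `L_{n+m} ≥ λ + η/4`.  Between two such jumps in the same residue class modulo `m` the sequence has
to return, i.e. there is `n'` with `L_{n'} ≥ λ - η/4 + ε` and `L_{n'+m} ≤ λ + η/4 - ε`.  Hence there
are as many such `n'`, and every jump `n` forms a discordant pair with every such `n'`.
-/

set_option autoImplicit false

open Filter

namespace Pool.Agent.Results.MP_7eacff_nt.DiscordantPairs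

/-- multiplicity of `s` as a zero of the Riemann zeta function (order of vanishing at `s`) -/
noncomputable def zmult (s : ℂ) : ℕ := analyticOrderNatAt riemannZeta s

/-- the number of nontrivial zeros of `ζ` with ordinate in `(0, t]`, with multiplicity -/
noncomputable def NZ (t : ℝ) : ℕ :=
  ∑ᶠ s ∈ {s : ℂ | riemannZeta s = 0 ∧ 0 < s.re ∧ s.re < 1 ∧ 0 < s.im ∧ s.im ≤ t}, zmult s

/-- for `n ≥ 1`: the `n`-th positive ordinate `γ n` of a nontrivial zero of `ζ`, the ordinates being
listed in nondecreasing order and repeated according to multiplicity -/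
noncomputable def γ (n : ℕ) : ℝ := sInf {t : ℝ | n ≤ NZ t}

/-- the unfolded gaps `δ_n = (γ_{n+1} - γ_n) log(γ_n / 2π) / 2π` -/
noncomputable def δ (n : ℕ) : ℝ :=
  (γ (n + 1) - γ n) / (2 * Real.pi) * Real.log (γ n / (2 * Real.pi))

/-- the linear form `L_n = ∑_{j<k} c_j δ_{n+j}` -/
noncomputable def L {k : ℕ} (c : Fin k → ℝ) (n : ℕ) : ℝ := ∑ j : Fin k, c j * δ (n + j)

/-- **Discordant pairs.** -/
theorem result (hRH : RiemannHypothesis) (k m : ℕ) (hm : 1 ≤ m) : ∃ ε : ℝ, 0 < ε ∧
    ∀ᶠ N : ℕ in atTop, ∀ c : Fin k → ℝ, (∃ j, 1 ≤ |c j|) →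
      ε * (N : ℝ) ^ 2 ≤ ({p : ℕ × ℕ | (1 ≤ p.1 ∧ p.1 ≤ N) ∧ (1 ≤ p.2 ∧ p.2 ≤ N) ∧
        L c p.1 + ε ≤ L c p.2 ∧ L c (p.2 + m) + ε ≤ L c (p.1 + m)}.ncard : ℝ) := by
  obtain ⟨ε, hε, h⟩ := Q31.GP.mono hRH k m hm
  refine ⟨ε, hε, ?_⟩
  have hd : ∀ n, Y743.LR.dl n = δ n := by
    intro n
    change (SG.ord (n + 1) - SG.ord n) * Real.log (SG.ord n / (2 * Real.pi)) / (2 * Real.pi) =
      (SG.ord (n + 1) - SG.ord n) / (2 * Real.pi) * Real.log (SG.ord n / (2 * Real.pi))
    ring
  filter_upwards [h] with N hN c hc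
  have h1 := hN c hc
  simp only [hd] at h1
  exact h1

end Pool.Agent.Results.MP_7eacff_nt.DiscordantPairs
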