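import Pool.Agent.Q31.GV.Lin

/-!
# Each gap is, asymptotically, a linear function of the neighbouring gaps (under RH)

Assume RH.  We prove that the sequence of the unfolded gaps `δ_n` is *linearly rigid*, as predicted
by the GUE hypothesis: with the explicit weights `c_K(j) = (1/K) ∑_{k ≤ K} max(0, 1 - j/2^k)`, the
gap `δ_n` is approximated in mean square by

`1 - ∑_{1 ≤ j < 2^K} c_K(j) (δ_{n+j} + δ_{n-j} - 2)`

with an error `O(1/K)` over the `n ≤ N`, for every fixed `K` and `N → ∞`.  So all but a small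
proportion of the gaps are determined, up to a small error, by their `2 (2^K - 1)` neighbours.  For
independent gaps with a positive variance nothing of this kind is true.

The main step is the bound `O(1 + log r)` for the mean square of `δ_n + ⋯ + δ_{n+r-1} - r`, for each
fixed `r`, with a constant independent of `r` (theorem `Q31.GV.var_le`).
-/

set_option autoImplicit false

open Filter

namespace Pool.Agent.Results.MP_7eacff_nt.GapRigidity

/-- multiplicity of `s` as a zero of the Riemann zeta function (order of vanishing at `s`) -/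
noncomputable def zmult (s : ℂ) : ℕ := analyticOrderNatAt riemannZeta s

/-- the number of nontrivial zeros of `ζ` with ordinate in `(0, t]`, with multiplicity -/
noncomputable def NZ (t : ℝ) : ℕ :=
  ∑ᶠ s ∈ {s : ℂ | riemannZeta s = 0 ∧ 0 < s.re ∧ s.re < 1 ∧ 0 < s.im ∧ s.im ≤ t}, zmult s

/-- for `n ≥ 1`: the `n`-th positive ordinate `γ n` of a nontrivial zero of `ζ`, the ordinates being
listed in nondecreasing order and repeated according to multiplicity -/
noncomputable def γ (n : ℕ) : ℝ := sInf {t : ℝ | n ≤ NZ t}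

/-- the unfolded gaps `δ_n = (γ_{n+1} - γ_n) log(γ_n / 2π) / 2π` -/
noncomputable def δ (n : ℕ) : ℝ :=
  (γ (n + 1) - γ n) / (2 * Real.pi) * Real.log (γ n / (2 * Real.pi))

/-- the weights: the average of the triangles `max(0, 1 - j / 2^k)`, `1 ≤ k ≤ K` -/
noncomputable def c (K j : ℕ) : ℝ :=
  1 / K * ∑ k ∈ Finset.Icc 1 K, max 0 (1 - (j : ℝ) / 2 ^ k)

/-- the linear prediction of `δ_n` by the gaps `δ_{n ± j}`, `1 ≤ j < 2^K` -/
noncomputable def predicted (K n : ℕ) : ℝ :=
  1 - ∑ j ∈ Finset.Ico 1 (2 ^ K), c K j * (δ (n + j) + δ (n - j) - 2)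

lemma sum_sym (f : ℤ → ℝ) (P : ℕ) (hP : 1 ≤ P) :
    ∑ j ∈ Finset.Ioo (-(P : ℤ)) P, f j = f 0 + ∑ j ∈ Finset.Ico 1 P, (f j + f (-(j : ℤ))) := by
  induction P, hP using Nat.le_induction with
  | base =>
    have : Finset.Ioo (-((1 : ℕ) : ℤ)) ((1 : ℕ) : ℤ) = {0} := by
      ext x
      rw [Finset.mem_Ioo, Finset.mem_singleton]
      omega
    rw [this]
    simp
  | succ P hP ih =>
    rw [Finset.sum_Ico_succ_top hP, ← add_assoc, ← ih]
    have : Finset.Ioo (-((P + 1 : ℕ) : ℤ)) ((P + 1 : ℕ) : ℤ) =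
        insert (P : ℤ) (insert (-(P : ℤ)) (Finset.Ioo (-(P : ℤ)) P)) := by
      ext x
      rw [Finset.mem_insert, Finset.mem_insert, Finset.mem_Ioo, Finset.mem_Ioo]
      omega
    rw [this, Finset.sum_insert, Finset.sum_insert]
    · ring
    · rw [Finset.mem_Ioo]; omega
    · rw [Finset.mem_insert, Finset.mem_Ioo]; omega

/-- **Linear rigidity of the gaps.** -/
theorem result (hRH : RiemannHypothesis) : ∃ C : ℝ, 0 < C ∧ ∀ K : ℕ, 2 ≤ K →
    ∀ᶠ N : ℕ in atTop,
      (1 / N : ℝ) * ∑ n ∈ Finset.Icc (2 ^ K) N, (δ n - predicted K n) ^ 2 ≤ C / K := by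
  obtain ⟨C, hC, h⟩ := Q31.GV.lin hRH
  refine ⟨C, hC, fun K hK => ?_⟩
  have hd : ∀ n, Y743.LR.dl n = δ n := by
    intro n
    change (SG.ord (n + 1) - SG.ord n) * Real.log (SG.ord n / (2 * Real.pi)) / (2 * Real.pi) =
      (SG.ord (n + 1) - SG.ord n) / (2 * Real.pi) * Real.log (SG.ord n / (2 * Real.pi))
    ring
  have hc : ∀ j : ℕ, Q31.RG.c K j = c K j := by
    intro j
    unfold Q31.RG.c c
    rw [Finset.range_eq_Ico, Finset.sum_Ico_add' (fun k => max 0 (1 - |((j : ℤ) : ℝ)| / 2 ^ k)) 0 K 1]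
    have e : Finset.Ico (0 + 1) (K + 1) = Finset.Icc 1 K := by
      ext x
      rw [Finset.mem_Ico, Finset.mem_Icc]
      omega
    rw [e]
    simp
  have hc' : ∀ j : ℕ, Q31.RG.c K (-(j : ℤ)) = c K j := by
    intro j
    rw [← hc]
    unfold Q31.RG.c
    simp
  have hc0 : Q31.RG.c K 0 = 1 := Q31.RG.c_zero K (by omega)
  filter_upwards [h K hK, eventually_gt_atTop 0] with N hN hN0
  have hNr : (0 : ℝ) < N := by exact_mod_cast hN0
  rw [one_div, inv_mul_eq_div, div_le_iff₀ hNr]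
  refine le_trans (le_of_eq ?_) hN
  refine Finset.sum_congr rfl fun n hn => ?_
  rw [Finset.mem_Icc] at hn
  congr 1
  have hpz : ((2 : ℤ) ^ K) = ((2 ^ K : ℕ) : ℤ) := by push_cast; rfl
  rw [hpz, sum_sym _ (2 ^ K) Nat.one_le_two_pow]
  have e0 : ((n : ℤ) + 0).toNat = n := by omega
  rw [hc0, e0, one_mul, hd]
  unfold predicted
  have e1 : ∀ j : ℕ, j ∈ Finset.Ico 1 (2 ^ K) → Q31.RG.c K (j : ℤ) *
      (Y743.LR.dl ((n : ℤ) + (j : ℤ)).toNat - 1) + Q31.RG.c K (-(j : ℤ)) *
      (Y743.LR.dl ((n : ℤ) + -(j : ℤ)).toNat - 1) = c K j * (δ (n + j) + δ (n - j) - 2) := by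
    intro j hj
    rw [Finset.mem_Ico] at hj
    have a1 : ((n : ℤ) + (j : ℤ)).toNat = n + j := by omega
    have a2 : ((n : ℤ) + -(j : ℤ)).toNat = n - j := by omega
    rw [hc, hc', a1, a2, hd, hd]
    ring
  rw [Finset.sum_congr rfl e1]
  ring

end Pool.Agent.Results.MP_7eacff_nt.GapRigidity
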