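import Pool.Agent.Q31.GP.Half

/-!
# Linear forms in `k` consecutive gaps lie on both sides of their mean, uniformly (under RH)

Assume RH.  The GUE hypothesis for the zeta zeros implies that the joint distribution of `k`
consecutive unfolded gaps `(δ_n, …, δ_{n+k-1})` has a density that is positive on `(0, ∞)^k`.  In
particular no closed half space whose boundary contains the mean `(1, …, 1)` contains almost all
these vectors.  We prove this under RH alone, with uniformity in the half space: for every `k` there
is `ε > 0` such that for all large `N`, for all real `a_0, …, a_{k-1}` with `max |a_j| ≥ 1`,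
`∑ a_j (δ_{n+j} - 1) ≥ ε` for at least `ε N` of the `n ≤ N` (and, replacing `a` by `-a`, also
`∑ a_j (δ_{n+j} - 1) ≤ -ε` for at least `ε N` of them).  Equivalently: `(1, …, 1)` is an interior point, with a
uniform radius, of the convex hull of the support of every limiting distribution of these vectors.

Already the case `k = 2`, `a = (1, -1)`, i.e. `δ_n ≥ δ_{n+1} + ε` and `δ_{n+1} ≥ δ_n + ε` for a
positive proportion of the `n` each, is not contained in results on the size of a single gap.

Idea of the proof.  By the theorem `gaps` of the starting module `Y743.LR.NT5` (which rests on the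
asymptotics of the number variance) the form stays away from its mean for a
positive proportion of the `n`; as its mean value is `0` and its second moment is bounded, both
signs occur with a positive proportion.
-/

set_option autoImplicit false

open Filter

namespace Pool.Agent.Results.MP_7eacff_nt.HalfSpaces

/-- multiplicity of `s` as a zero of the Riemann zeta function (order of vanishing at `s`) -/
noncomputable def zmult (s : ℂ) : ℕ := analyticOrderNatAt riemannZeta s

/-- the number of nontrivial zeros of `ζ` with ordinate in `(0, t]`, with multiplicity -/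
noncomputable def NZ (t : ℝ) : ℕ :=
  ∑ᶠ s ∈ {s : ℂ | riemannZeta s = 0 ∧ 0 < s.re ∧ s.re < 1 ∧ 0 < s.im ∧ s.im ≤ t}, zmult s

/-- for `n ≥ 1`: the `n`-th positive ordinate `γ n` of a nontrivial zero of `ζ`, the ordinates being
listed in nondecreasing order and repeated according to multiplicity -/
noncomputable def γ (n : ℕ) : ℝ := sInf {t : ℝ | n ≤ NZ t}

/-- the unfolded gaps `δ_n = (γ_{n+1} - γ_n) log(γ_n / 2π) / 2π` -/
noncomputable def δ (n : ℕ) : ℝ :=
  (γ (n + 1) - γ n) / (2 * Real.pi) * Real.log (γ n / (2 * Real.pi))

/-- **Half spaces through the mean.** -/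
theorem result (hRH : RiemannHypothesis) (k : ℕ) : ∃ ε : ℝ, 0 < ε ∧ ∀ᶠ N : ℕ in atTop,
    ∀ a : Fin k → ℝ, (∃ j, 1 ≤ |a j|) →
      ε ≤ (1 / N : ℝ) * ({n : ℕ | 1 ≤ n ∧ n ≤ N ∧ ε ≤ ∑ j : Fin k, a j * (δ (n + j) - 1)}.ncard : ℝ) := by
  obtain ⟨ε, hε, h⟩ := Q31.GP.half hRH k
  refine ⟨ε, hε, ?_⟩
  have hd : ∀ n, Y743.LR.dl n = δ n := by
    intro n
    change (SG.ord (n + 1) - SG.ord n) * Real.log (SG.ord n / (2 * Real.pi)) / (2 * Real.pi) =
      (SG.ord (n + 1) - SG.ord n) / (2 * Real.pi) * Real.log (SG.ord n / (2 * Real.pi))
    ring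
  filter_upwards [h, eventually_gt_atTop 0] with N hN hN0 a ha
  have hNr : (0 : ℝ) < N := by exact_mod_cast hN0
  have h1 := hN a ha
  simp only [hd] at h1
  rw [one_div, inv_mul_eq_div, le_div_iff₀ hNr]
  exact h1

end Pool.Agent.Results.MP_7eacff_nt.HalfSpaces
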