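import Pool.Agent.Q32.Gap.Zeta2
import Pool.Agent.H370R2.Expl1

set_option autoImplicit false

/-!
# MP_7eacff_nt: the gaps between the ordinates of the zeta zeros and the residue classes of their indices

No hypothesis is assumed.  Let `N(t)` be the number of nontrivial zeros of zeta with ordinate in `(0, t]`, with
multiplicity, on or off the critical line, and let the gap with number `n` be the set of the `t` with `N(t) = n`, an
interval between consecutive ordinates.  Let `A` be a set of natural numbers such that any three consecutive integers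
contain at most one element of `A`.  All gaps with number in `A ∩ (N(T), N(T + H)]`, `T ^ h ≤ H ≤ T`, up to at most
`((c(h) - 1) / 2 + 0.51 δ² + ε) N(T, T + H) + 1` exceptions, have length at least `δ / log T`; here
`(c(1) - 1) / 2 = 0.1637...`.  In particular more than half of all gaps in `(T, 2T]` are longer than `0.07 / log T`, and
for `q ≤ 6` the number `N(t)` lies in every residue class modulo `q` for a positive proportion of the `t` in
`(T, 2T]`.  For `q = 2` this says that Hardy's function is positive (negative) for a positive proportion of the `t`.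
-/

open Finset MeasureTheory Filter Topology

namespace Pool.Agent.Results.MP_7eacff_nt.ResidueClassesOfN

open Pool.Agent.Q32.Gap

theorem c_one : c 1 ≤ 1.327503 := H370.Expl.cMTinv_num

theorem meas_cls (q a : ℕ) (T : ℝ) : MeasurableSet {t : ℝ | T < t ∧ t ≤ 2 * T ∧ N 0 t ≡ a [MOD q]} := by
  have h : Monotone (fun t : ℝ => N 0 t) := fun s t h => N_mono' h
  have h1 : MeasurableSet ((fun t : ℝ => N 0 t) ⁻¹' {n : ℕ | n ≡ a [MOD q]}) :=
    h.measurable MeasurableSet.of_discrete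
  have h2 : {t : ℝ | T < t ∧ t ≤ 2 * T ∧ N 0 t ≡ a [MOD q]} =
      Set.Ioc T (2 * T) ∩ ((fun t : ℝ => N 0 t) ⁻¹' {n : ℕ | n ≡ a [MOD q]}) := by
    ext t
    simp only [Set.mem_inter_iff, Set.mem_Ioc, Set.mem_preimage, Set.mem_ofPred_eq]
    tauto
  rw [h2]
  exact measurableSet_Ioc.inter h1

theorem fin_cls (q a : ℕ) (T : ℝ) : volume {t : ℝ | T < t ∧ t ≤ 2 * T ∧ N 0 t ≡ a [MOD q]} ≠ ⊤ := by
  refine ne_top_of_le_ne_top ?_ (measure_mono (t := Set.Icc T (2 * T)) ?_)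
  · rw [Real.volume_Icc]
    exact ENNReal.ofReal_ne_top
  · rintro t ⟨b1, b2, -⟩
    exact ⟨b1.le, b2⟩

/-- two classes modulo four -/
theorem two_four (a : ℕ) (T : ℝ) :
    (volume {t : ℝ | T < t ∧ t ≤ 2 * T ∧ N 0 t ≡ a [MOD 4]}).toReal +
      (volume {t : ℝ | T < t ∧ t ≤ 2 * T ∧ N 0 t ≡ a + 2 [MOD 4]}).toReal ≤
      (volume {t : ℝ | T < t ∧ t ≤ 2 * T ∧ N 0 t ≡ a [MOD 2]}).toReal := by
  rw [← ENNReal.toReal_add (fin_cls _ _ _) (fin_cls _ _ _)]
  refine ENNReal.toReal_mono (fin_cls _ _ _) ?_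
  rw [← measure_union ?_ (meas_cls _ _ _)]
  · refine measure_mono ?_
    rintro t (⟨h1, h2, h3⟩ | ⟨h1, h2, h3⟩)
    · exact ⟨h1, h2, h3.of_dvd (by norm_num)⟩
    · refine ⟨h1, h2, ?_⟩
      have h4 : N 0 t ≡ a + 2 [MOD 2] := h3.of_dvd (by norm_num)
      refine h4.trans ?_
      unfold Nat.ModEq
      omega
  · rw [Set.disjoint_left]
    rintro t ⟨-, -, h1⟩ ⟨-, -, h2⟩
    unfold Nat.ModEq at h1 h2
    omega

/-- the numerical values -/
theorem numeric (q : ℕ) (hq : 3 ≤ q) (δ κ : ℝ) (hδ : 0 < δ) (hδ1 : δ ≤ 9 / 10) (hκ0 : 0 < κ)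
    (hκ : κ * 6.2832 < δ * (1 / q - 0.1637515 - 51 / 100 * δ ^ 2)) :
    ∃ T₀ : ℝ, ∀ T : ℝ, T₀ ≤ T → ∀ a : ℕ,
      κ * T ≤ (volume {t : ℝ | T < t ∧ t ≤ 2 * T ∧ N 0 t ≡ a [MOD q]}).toReal := by
  refine residue q hq δ κ hδ hδ1 hκ0 ?_
  have hpi := Real.pi_pos
  have hpi2 : Real.pi < 3.1416 := Real.pi_lt_d4
  have h1 := c_one
  have h2 : δ * (1 / q - 0.1637515 - 51 / 100 * δ ^ 2) ≤ δ * (1 / q - (c 1 - 1) / 2 - 51 / 100 * δ ^ 2) :=
    mul_le_mul_of_nonneg_left (by linarith) hδ.le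
  rw [div_mul_eq_mul_div, lt_div_iff₀ (by positivity)]
  have h3 : κ * (2 * Real.pi) ≤ κ * 6.2832 := mul_le_mul_of_nonneg_left (by linarith) hκ0.le
  linarith

theorem result :
    -- the gaps whose number is in a sparse set are long, with few exceptions
    (∀ h ε δ : ℝ, 0 < h → h ≤ 1 → 0 < ε → 0 < δ → δ ≤ 9 / 10 →
      ∃ T₀ : ℝ, ∀ T : ℝ, T₀ ≤ T → ∀ H : ℝ, T ^ h ≤ H → H ≤ T →
        ∀ A : Set ℕ, (∀ n ∈ A, n + 1 ∉ A ∧ n + 2 ∉ A) →
          (({n : ℕ | n ∈ A ∧ N 0 T < n ∧ n ≤ N 0 (T + H)}.ncard : ℕ) : ℝ) -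
              ((c h - 1) / 2 + 51 / 100 * δ ^ 2 + ε) * N T (T + H) - 1 ≤
            (({n : ℕ | n ∈ A ∧ N 0 T < n ∧ n ≤ N 0 (T + H) ∧ δ / Real.log T ≤ gap n}.ncard : ℕ) : ℝ)) ∧
    c 1 ≤ 1.327503 ∧
    -- more than half of all gaps are long
    (∃ T₀ : ℝ, ∀ T : ℝ, T₀ ≤ T →
      (N T (2 * T) : ℝ) <
        2 * (({n : ℕ | N 0 T < n ∧ n ≤ N 0 (2 * T) ∧ 0.07 / Real.log T ≤ gap n}.ncard : ℕ) : ℝ)) ∧
    -- the residue classes of the number of zeros
    (∃ T₀ : ℝ, ∀ T : ℝ, T₀ ≤ T → ∀ a : ℕ,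
      0.0043 * T ≤ (volume {t : ℝ | T < t ∧ t ≤ 2 * T ∧ N 0 t ≡ a [MOD 2]}).toReal ∧
      0.0059 * T ≤ (volume {t : ℝ | T < t ∧ t ≤ 2 * T ∧ N 0 t ≡ a [MOD 3]}).toReal ∧
      0.00215 * T ≤ (volume {t : ℝ | T < t ∧ t ≤ 2 * T ∧ N 0 t ≡ a [MOD 4]}).toReal ∧
      0.00059 * T ≤ (volume {t : ℝ | T < t ∧ t ≤ 2 * T ∧ N 0 t ≡ a [MOD 5]}).toReal ∧
      0.000013 * T ≤ (volume {t : ℝ | T < t ∧ t ≤ 2 * T ∧ N 0 t ≡ a [MOD 6]}).toReal) := by
  refine ⟨?_, c_one, ?_, ?_⟩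
  · intro h ε δ h0 h1 hε hδ hδ1
    obtain ⟨T₀, -, hT₀⟩ := long_main h ε δ h0 h1 hε hδ hδ1
    refine ⟨T₀, fun T hT H hH1 hH2 A hA => ?_⟩
    have h2 := hT₀ T hT H hH1 hH2 A hA
    have e : count A (N 0 T) (N 0 (T + H)) = {n : ℕ | n ∈ A ∧ N 0 T < n ∧ n ≤ N 0 (T + H)}.ncard := rfl
    rw [e] at h2
    exact h2
  · obtain ⟨T₀, hT₀⟩ := all_gaps 0.07 0.0001 (by norm_num) (by norm_num) (by norm_num)
    obtain ⟨C, hC, hN⟩ := N_dyadic
    have hpi := Real.pi_pos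
    have hlim : Tendsto (fun T : ℝ => T * Real.log T / (2 * Real.pi) - C * (T + Real.log T ^ 2)) atTop atTop :=
      dyadic_tendsto C
    obtain ⟨T1, hT1⟩ := (hlim.eventually_gt_atTop 0).exists_forall_of_atTop
    refine ⟨max (max T₀ T1) 10, fun T hT => ?_⟩
    have h1 := hT₀ T (((le_max_left _ _).trans (le_max_left _ _)).trans hT)
    have h2 := hT1 T (((le_max_right _ _).trans (le_max_left _ _)).trans hT)
    have h3 := hN T ((le_max_right _ _).trans hT)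
    rw [← two_mul] at h3
    have h4 : (0 : ℝ) < N T (2 * T) := h2.trans_le h3
    have h5 := c_one
    have h6 : (1 / 2 + 1 / 2000 : ℝ) ≤ 1 - 3 * ((c 1 - 1) / 2) - 153 / 100 * 0.07 ^ 2 - 0.0001 := by
      norm_num at h5 ⊢
      linarith
    have h7 := mul_le_mul_of_nonneg_right h6 h4.le
    linarith
  · obtain ⟨T3, h3⟩ := numeric 3 le_rfl (1 / 3) 0.0059 (by norm_num) (by norm_num) (by norm_num) (by norm_num)
    obtain ⟨T4, h4⟩ := numeric 4 (by norm_num) 0.24 0.00215 (by norm_num) (by norm_num) (by norm_num)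
      (by norm_num)
    obtain ⟨T5, h5⟩ := numeric 5 (by norm_num) 0.154 0.00059 (by norm_num) (by norm_num) (by norm_num)
      (by norm_num)
    obtain ⟨T6, h6⟩ := numeric 6 (by norm_num) 0.0436 0.000013 (by norm_num) (by norm_num) (by norm_num)
      (by norm_num)
    refine ⟨max (max T3 T4) (max T5 T6), fun T hT a => ?_⟩
    have k3 := h3 T (((le_max_left _ _).trans (le_max_left _ _)).trans hT) a
    have k4 := h4 T (((le_max_right _ _).trans (le_max_left _ _)).trans hT)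
    have k5 := h5 T (((le_max_left _ _).trans (le_max_right _ _)).trans hT) a
    have k6 := h6 T (((le_max_right _ _).trans (le_max_right _ _)).trans hT) a
    refine ⟨?_, k3, k4 a, k5, k6⟩
    have h7 := two_four a T
    have h8 := k4 a
    have h9 := k4 (a + 2)
    linarith

end Pool.Agent.Results.MP_7eacff_nt.ResidueClassesOfN
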